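import Mathlib
import Pool.Agent.H72.EQQ.Targets

/-!
# Board eqq_modules (MP_7ecdd4_nt), row SMQ: tuples with small radical, with a power saving
-/

set_option autoImplicit false

open Pool.Agent.H38.AE.Statement Pool.Agent.H38.AT MeasureTheory Filter
open scoped Topology

namespace Pool.Agent.H67.EQQ

open Pool.Agent.H71.EQ Pool.Agent.H72.EQQ

/-- SMQ: tuples with small radical, with a power saving. -/
theorem pf_SMQ (h1 : Pool.Agent.H71.EQ.T_CTB) : T_SMQ := by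
  intro k hk
  obtain ⟨ε₀, C, hε₀, hC, hX⟩ := h1 k hk
  have hnu : 0 ≤ nu k := by
    unfold nu
    positivity
  have hs : 0 < nu k + ε₀ := by linarith
  refine ⟨ε₀ / 2, min (1 / 2) (ε₀ / (2 * (nu k + ε₀))), C, by positivity, by positivity, hC,
    fun X κ hX1 _ hκ1 => ?_⟩
  set δ : ℝ := min (1 / 2) (ε₀ / (2 * (nu k + ε₀))) with hδ
  have hδ0 : δ ≤ 1 / 2 := min_le_left _ _
  have hδ1 : δ * (nu k + ε₀) ≤ ε₀ / 2 := by
    have h2 : δ ≤ ε₀ / (2 * (nu k + ε₀)) := min_le_right _ _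
    rw [le_div_iff₀ (by positivity)] at h2
    linarith
  have hX0 : 0 < X := by linarith
  have hp : 0 < X ^ (-δ) := Real.rpow_pos_of_pos hX0 _
  have h3' : X ^ (1 - δ) ≤ κ * X := by
    have e1 : X ^ (1 - δ) = X ^ (-δ) * X := by
      rw [sub_eq_neg_add, Real.rpow_add hX0, Real.rpow_one]
    rw [e1]
    exact mul_le_mul_of_nonneg_right hκ1 hX0.le
  have h3 : 1 ≤ κ * X :=
    le_trans (Real.one_le_rpow hX1 (by linarith)) h3'
  have h4 : X ^ (nu k + ε₀ / 2) ≤ (κ * X) ^ (nu k + ε₀) := by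
    calc X ^ (nu k + ε₀ / 2) ≤ X ^ ((1 - δ) * (nu k + ε₀)) :=
          Real.rpow_le_rpow_of_exponent_le hX1 (by nlinarith)
      _ = (X ^ (1 - δ)) ^ (nu k + ε₀) := Real.rpow_mul hX0.le _ _
      _ ≤ (κ * X) ^ (nu k + ε₀) :=
          Real.rpow_le_rpow (Real.rpow_nonneg hX0.le _) h3' hs.le
  obtain ⟨h6, h7⟩ := hX (κ * X) h3
  have hsub : {x : Fin (k + 1) → ℤ | Admissible x ∧ (rd x : ℝ) ≤ κ * X ∧
      (height x : ℝ) ≤ X ^ (nu k + ε₀ / 2)} ⊆
      {x : Fin (k + 1) → ℤ | Admissible x ∧ (rd x : ℝ) ≤ κ * X ∧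
      (height x : ℝ) ≤ (κ * X) ^ (nu k + ε₀)} :=
    fun x hx => ⟨hx.1, hx.2.1, hx.2.2.trans h4⟩
  refine ⟨h6.subset hsub, le_trans ?_ h7⟩
  exact_mod_cast Set.ncard_le_ncard hsub h6

end Pool.Agent.H67.EQQ
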